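import Mathlib
import Pool.Agent.H80.GeprociDefs
import Pool.Agent.H80.Geproci2

open Pool.Agent.H80.Geproci

theorem Pool.Agent.Results.MP_69376a_ag.BothCones.result (k : Type) [Field k] [IsAlgClosed k]
    [CharZero k] (a b : ℕ) (ha : 3 ≤ a) (hab : a ≤ b) (Z : Finset (Fin 4 → k))
    (hZ : ∀ z ∈ Z, ∀ z' ∈ Z, ∀ c : k, z = c • z' → z = z')
    (hs : Submodule.span k (Z : Set (Fin 4 → k)) = ⊤)
    (hg : IsGeproci a b (Z : Set (Fin 4 → k))) :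
    CondC a (Z : Set (Fin 4 → k)) ∧ CondC b (Z : Set (Fin 4 → k)) :=
  ⟨main ha hab Z hZ hs hg (Or.inl rfl), main ha hab Z hZ hs hg (Or.inr rfl)⟩
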